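import Mathlib

/-!
Intuitionistic propositional formulas, Kripke semantics, the intermediate logic of a poset.
-/

namespace Pool.Agent.MP_d96af6_lc

/-- Propositional intuitionistic formulas in the variables `p_0, p_1, …`. -/
inductive Fm : Type
  | var : ℕ → Fm
  | bot : Fm
  | conj : Fm → Fm → Fm
  | disj : Fm → Fm → Fm
  | imp : Fm → Fm → Fm

/-- All variables occurring in the formula are among `p_0, …, p_{k-1}`. -/
def VarsBelow (k : ℕ) : Fm → Prop
  | Fm.var i => i < k
  | Fm.bot => True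
  | Fm.conj φ ψ => VarsBelow k φ ∧ VarsBelow k ψ
  | Fm.disj φ ψ => VarsBelow k φ ∧ VarsBelow k ψ
  | Fm.imp φ ψ => VarsBelow k φ ∧ VarsBelow k ψ

/-- Kripke forcing in a partial order `W` under the valuation `V`. -/
def Forces {W : Type} [PartialOrder W] (V : ℕ → Set W) : Fm → W → Prop
  | Fm.var i, x => x ∈ V i
  | Fm.bot, _ => False
  | Fm.conj φ ψ, x => Forces V φ x ∧ Forces V ψ x
  | Fm.disj φ ψ, x => Forces V φ x ∨ Forces V ψ x
  | Fm.imp φ ψ, x => ∀ y, x ≤ y → Forces V φ y → Forces V ψ y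

/-- The intermediate logic of a partial order: the formulas true at every point under every
valuation by upward closed sets. -/
def ILog (W : Type) [PartialOrder W] : Set Fm :=
  {φ | ∀ V : ℕ → Set W, (∀ i, IsUpperSet (V i)) → ∀ x : W, Forces V φ x}

/-- The biconditional `φ ↔ ψ`. -/
def Fm.biimp (φ ψ : Fm) : Fm := Fm.conj (Fm.imp φ ψ) (Fm.imp ψ φ)

end Pool.Agent.MP_d96af6_lc
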