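import Pool.Agent.MP_d96af6_lc.Defs

/-!
The weight `2 x_0 + 3 x_1` maps `ω^n` (for `n ≥ 2`) onto a Rieger-Nishimura type ladder.
-/

namespace Pool.Agent.MP_d96af6_lc

/-- the ladder formulas -/
def lad : ℕ → Fm
  | 0 => Fm.var 0
  | 1 => Fm.var 1
  | m + 2 => Fm.disj (lad (m + 1)) (Fm.imp (lad (m + 1)) (lad m))

theorem lad_vars : ∀ m, VarsBelow 2 (lad m)
  | 0 => by simp [lad, VarsBelow]
  | 1 => by simp [lad, VarsBelow]
  | m + 2 => by
    simp only [lad, VarsBelow]
    exact ⟨lad_vars (m + 1), lad_vars (m + 1), lad_vars m⟩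

section

variable {W : Type} [PartialOrder W] (h : W → ℕ)
  (h1 : ∀ x y, x ≤ y → h y = h x ∨ h x + 2 ≤ h y)
  (h2 : ∀ x d, 2 ≤ d → ∃ y, x ≤ y ∧ h y = h x + d)

include h1 h2 in
theorem forces_lad (M : ℕ) : ∀ (m : ℕ) (x : W),
    Forces (fun i => {y | M ≤ h y + i}) (lad m) x ↔ M ≤ h x + m
  | 0, x => by simp [lad, Forces]
  | 1, x => by simp [lad, Forces]
  | m + 2, x => by
    simp only [lad, Forces, forces_lad M (m + 1), forces_lad M m]
    constructor
    · rintro (H | H)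
      · omega
      · by_contra hn
        obtain ⟨y, hy, hy'⟩ := h2 x (M - (m + 1) - h x) (by omega)
        have := H y hy (by omega)
        omega
    · intro H
      by_cases H' : M ≤ h x + (m + 1)
      · exact Or.inl H'
      · refine Or.inr fun y hy hy' => ?_
        rcases h1 x y hy with e | e <;> omega

include h1 h2 in
theorem lad_not_imp (x₀ : W) (h0 : h x₀ = 0) {i j : ℕ} (hij : i < j) :
    ¬ ∀ V : ℕ → Set W, (∀ i, IsUpperSet (V i)) → ∀ x : W,
      Forces V (Fm.imp (lad j) (lad i)) x := by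
  intro H
  have hup : ∀ k : ℕ, IsUpperSet {y | j ≤ h y + k} := by
    intro k a b hab ha
    simp only [Set.mem_ofPred_eq] at ha ⊢
    rcases h1 a b hab with e | e <;> omega
  have := H (fun k => {y | j ≤ h y + k}) hup x₀ x₀ le_rfl
  rw [forces_lad h h1 h2, forces_lad h h1 h2] at this
  have := this (by omega)
  omega

include h1 h2 in
theorem lad_not_biimp (x₀ : W) (h0 : h x₀ = 0) {i j : ℕ} (hij : i ≠ j) :
    Fm.biimp (lad i) (lad j) ∉ ILog W := by
  intro H
  rcases lt_or_gt_of_ne hij with hlt | hlt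
  · exact lad_not_imp h h1 h2 x₀ h0 hlt fun V hV x => (H V hV x).2
  · exact lad_not_imp h h1 h2 x₀ h0 hlt fun V hV x => (H V hV x).1

end

theorem main (n : ℕ) (hn : 2 ≤ n) {i j : ℕ} (hij : i ≠ j) :
    Fm.biimp (lad i) (lad j) ∉ ILog (Fin n → ℕ) := by
  let a : Fin n := ⟨0, by omega⟩
  let b : Fin n := ⟨1, by omega⟩
  have hab : a ≠ b := by simp [a, b]
  refine lad_not_biimp (fun x : Fin n → ℕ => 2 * x a + 3 * x b) ?_ ?_ 0 (by simp) hij
  · intro x y hxy
    have e1 : x a ≤ y a := hxy a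
    have e2 : x b ≤ y b := hxy b
    omega
  · intro x d hd
    obtain ⟨s, t, hst⟩ : ∃ s t : ℕ, d = 2 * s + 3 * t := by
      rcases Nat.even_or_odd' d with ⟨k, hk | hk⟩
      · exact ⟨k, 0, by omega⟩
      · exact ⟨k - 1, 1, by omega⟩
    refine ⟨x + Pi.single a s + Pi.single b t, fun c => ?_, ?_⟩
    · simp only [Pi.add_apply]
      omega
    · simp only [Pi.add_apply, Pi.single_eq_same, Pi.single_eq_of_ne hab,
        Pi.single_eq_of_ne hab.symm]
      omega

end Pool.Agent.MP_d96af6_lc
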